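import Pool.Agent.W123.RU.DiffData
import Pool.Agent.W123.GS.Fin

set_option autoImplicit false

/-!
# Primes `p` with `p + h` almost prime: constant density at all but boundedly many scales

Uniformly in the even number `h ≤ x ^ B`. Put `S(h) = ∏_{q ∣ h, q > 2} (q - 1) / (q - 2)` and consider
the primes `p` for which `p + h` has at most `r` prime factors, all larger than `x ^ (1 / r)`. At all
but boundedly many dyadic scales `D` with `log² x / S(h) ≤ D ≤ x` they have a constant density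
`λ S(h) / log² x` on `[n - D, n + D]`, up to `δ S(h) / log² x`, for all subintervals simultaneously:
this holds for almost all `n` in `(x, 2 x]` with some `λ ≥ 0`, and for a positive proportion with
`c₁ ≤ λ ≤ c₂`.
-/

namespace Pool.Agent.Results.MP_e87c7d_nt.AlmostPrimePairScales

open Finset Filter

/-- `p` is prime and `p + h` has at most `r` prime factors (with multiplicity), all of them larger
than `x ^ (1 / r)`. -/
def AlmostPair (r h x p : ℕ) : Prop :=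
  p.Prime ∧ (p + h).primeFactorsList.length ≤ r ∧
    ∀ q : ℕ, q.Prime → q ∣ p + h → (x : ℝ) ^ (1 / (r : ℝ)) < (q : ℝ)

/-- the arithmetic factor of the Hardy-Littlewood prediction -/
noncomputable def S (h : ℕ) : ℝ :=
  ∏ p ∈ h.primeFactors.filter (fun p => 2 < p), ((p : ℝ) - 1) / ((p : ℝ) - 2)

open Classical in
/-- up to `δ S(h) / log² x` the primes `p` of the problem have a constant density
`lam S(h) / log² x` with `c₁ ≤ lam ≤ c₂` on `[n - D, n + D]` -/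
def ConstantDensity (r h : ℕ) (c₁ c₂ δ : ℝ) (x n D : ℕ) : Prop :=
  ∃ lam : ℝ, c₁ ≤ lam ∧ lam ≤ c₂ ∧ ∀ u v : ℕ, n ≤ u + D → u ≤ v → v ≤ n + D →
    |(((Finset.Ioc u v).filter (fun p => AlmostPair r h x p)).card : ℝ) -
      lam * S h * ((v : ℝ) - u) / Real.log x ^ 2| ≤ δ * S h * D / Real.log x ^ 2

open Classical in
/-- the number of `j` with `log² x / S(h) ≤ 2 ^ j ≤ x` for which there is no constant density on
`[n - 2 ^ j, n + 2 ^ j]` -/
noncomputable def badScales (r h : ℕ) (c₁ c₂ δ : ℝ) (x n : ℕ) : ℕ :=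
  ((Finset.range (Nat.log 2 x + 1)).filter (fun j => Real.log x ^ 2 / S h ≤ (2 : ℝ) ^ j ∧
    ¬ ConstantDensity r h c₁ c₂ δ x n (2 ^ j))).card

open Pool.Agent.W123.RP Pool.Agent.H373R2.T7 Pool.Agent.W123.RU Pool.Agent.W123.RU.Gold
  Pool.Agent.W123.RU.Diff Pool.Agent.W123.GS

lemma S_eq (h : ℕ) : S h = sing h := rfl

open Classical in
lemma bad_le (r h : ℕ) (c₁ c₂ δ : ℝ) (x n : ℕ) (P : ℕ → Prop) (L : ℝ)
    (hS : 0 < sing h) (hlog : 0 < Real.log x) (hL : L = Real.log x ^ 2 / sing h)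
    (hP : ∀ m, P m ↔ AlmostPair r h x m) :
    badScales r h c₁ c₂ δ x n ≤ ((range (Nat.log 2 x + 1)).filter
      (fun j => L ≤ (2 : ℝ) ^ j ∧ ¬ Good P c₁ c₂ δ L n j)).card := by
  unfold badScales
  apply card_le_card
  intro j hj
  rw [mem_filter] at hj ⊢
  refine ⟨hj.1, ?_, ?_⟩
  · rw [hL]; exact hj.2.1
  · intro hg
    apply hj.2.2
    obtain ⟨lam, h1, h2, h3⟩ := hg
    refine ⟨lam, h1, h2, ?_⟩
    intro u v hu huv hv
    have h4 := h3 u v hu huv hv
    have hco : co P u v = ((Finset.Ioc u v).filter (fun p => AlmostPair r h x p)).card := by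
      unfold co
      congr 1
      ext m
      rw [mem_filter, mem_filter, hP]
    rw [hco] at h4
    rw [S_eq]
    have e1 : lam * sing h * ((v : ℝ) - u) / Real.log x ^ 2 = lam * ((v : ℝ) - u) / L := by
      rw [hL]; field_simp
    have e2 : δ * sing h * ((2 ^ j : ℕ) : ℝ) / Real.log x ^ 2 = δ * 2 ^ j / L := by
      rw [hL]; push_cast; field_simp
    rw [e1, e2]
    exact h4

open Classical in
/-- **All but boundedly many scales, uniformly in the even number.** -/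
theorem result (B : ℕ) (hB : 2 ≤ B) :
    ∃ (r : ℕ) (c₁ c₂ κ : ℝ), 0 < c₁ ∧ 0 < c₂ ∧ 0 < κ ∧ ∀ δ η : ℝ, 0 < δ → 0 < η →
    ∃ (K : ℕ) (Λ : ℝ), ∀ᶠ x : ℕ in atTop, ∀ h : ℕ, Even h → 1 ≤ h → h ≤ x ^ B →
      κ * x ≤ (((Finset.Ioc x (2 * x)).filter (fun n => badScales r h c₁ c₂ δ x n ≤ K)).card : ℝ) ∧
      (((Finset.Ioc x (2 * x)).filter (fun n => K < badScales r h 0 Λ δ x n)).card : ℝ) ≤ η * x := by
  obtain ⟨D', hdata⟩ := Diff.data B hB
  obtain ⟨K1, hK1, hmain⟩ := sieve_scales 2 4 3 D' 1 (by norm_num)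
  obtain ⟨R, hK1R, hR0, cS, C3, hcS, hC3, hdata⟩ := hdata K1
  obtain ⟨c₁, c₂, κ, hc₁, hc₂, hκ, hmain⟩ := hmain R hK1R cS C3 hcS hC3
  refine ⟨R, c₁, c₂, κ, hc₁, hc₂, hκ, ?_⟩
  intro δ η hδ hη
  obtain ⟨K, lam, L0, hlam, hreg⟩ := hmain δ η hδ hη
  refine ⟨K, lam, ?_⟩
  filter_upwards [hdata L0, hreg] with X hX hreg
  intro h hE h1 hXB
  obtain ⟨L, hL⟩ : ∃ L : ℝ, L = Real.log X ^ 2 / sing h := ⟨_, rfl⟩
  obtain ⟨hS0, hlX, hL0, hL8, hVy, hlarge, hP0⟩ := hX h hE h1 hXB L hL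
  obtain ⟨P, hP⟩ : ∃ P : ℕ → Prop, ∀ m, P m ↔ AlmostPair R h X m := ⟨_, fun m => Iff.rfl⟩
  obtain ⟨hPQ, hcnt⟩ := hP0 P (fun m => hP m)
  have hfin := hreg (Diff.Q h) (Gold.Co h) L {h} (sdata h hE) hL0 hL8 hVy (by simp) hlarge P P
    (fun n hn => hn) hPQ hcnt
  refine conclude P c₁ c₂ δ L lam κ η K X (fun n => badScales R h c₁ c₂ δ X n)
    (fun n => badScales R h 0 lam δ X n) ?_ ?_ hfin
  · intro n _ _
    exact bad_le R h c₁ c₂ δ X n P L hS0 hlX hL hP
  · intro n _ _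
    exact bad_le R h 0 lam δ X n P L hS0 hlX hL hP

end Pool.Agent.Results.MP_e87c7d_nt.AlmostPrimePairScales
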