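import Pool.Agent.W23.KT.All

/-!
Almost prime `k`-tuples at the elements of an arbitrary (dense or sparse) set of primes.
-/

set_option autoImplicit false

namespace Pool.Agent.Results.MP_e87c7d_nt.AlmostPrimeTuplesDenseSets

/-- `S` consists of `k` linear forms `a + b n`, given by pairs `(a, b)`, with coprime integers
`a, b`, `|a| ≤ X^M` and `1 ≤ b ≤ X^M` -/
def System (k M X : ℕ) (S : Finset (ℤ × ℕ)) : Prop :=
  S.card = k ∧ ∀ L ∈ S, |(L.1 : ℝ)| ≤ (X : ℝ) ^ M ∧ 1 ≤ L.2 ∧ (L.2 : ℝ) ≤ (X : ℝ) ^ M ∧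
    Int.gcd L.1 L.2 = 1

/-- the `p ∈ A` such that for each form `a + b n` of `S` one has `|a + b p| = m s` with
`1 ≤ m ≤ X^ε` and `s > 1` a product of at most `r` primes, each at least `X^(1/r)` -/
def good (A : Finset ℕ) (X : ℕ) (ε : ℝ) (r : ℕ) (S : Finset (ℤ × ℕ)) : Set ℕ :=
  {p : ℕ | p ∈ A ∧ ∀ L ∈ S, ∃ m s : ℕ, (L.1 + L.2 * (p : ℤ)).natAbs = m * s ∧
    1 ≤ m ∧ (m : ℝ) ≤ (X : ℝ) ^ ε ∧ 1 < s ∧ s.primeFactorsList.length ≤ r ∧
    ∀ q : ℕ, q.Prime → q ∣ s → (X : ℝ) ^ (1 / r : ℝ) ≤ q}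

/-- the `p ∈ A` such that for each form `a + b n` of `S` one has `0 ≠ |a + b p| = m s` where all
prime factors of `m` are smaller than `X^ε` and `s` is a product of at most `r` primes, each at
least `X^(1/r)` -/
def goodSparse (A : Finset ℕ) (X : ℕ) (ε : ℝ) (r : ℕ) (S : Finset (ℤ × ℕ)) : Set ℕ :=
  {p : ℕ | p ∈ A ∧ ∀ L ∈ S, L.1 + L.2 * (p : ℤ) ≠ 0 ∧
    ∃ m s : ℕ, (L.1 + L.2 * (p : ℤ)).natAbs = m * s ∧
    (∀ l : ℕ, l.Prime → l ∣ m → (l : ℝ) < (X : ℝ) ^ ε) ∧ s.primeFactorsList.length ≤ r ∧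
    ∀ q : ℕ, q.Prime → q ∣ s → (X : ℝ) ^ (1 / r : ℝ) ≤ q}

/-- For all `k ≥ 1` and `M` there is `r` such that: (1) for all `δ, ε > 0` there are `c > 0` and `K`
such that for every `X ≥ 2` and every set `A` of at least `δ X / log X` primes up to `X` there is a
set `H` of at most `K` linear forms such that every system `S` of `k` linear forms disjoint from `H`
has at least `c |A|` good elements of `A`; (2) for every `ε > 0` there are `c, η > 0` and `C` such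
that for every `X ≥ 2` and every set `A` of at least `X^(1-η)` primes up to `X` there is a set `H`
of at most `C X / (|A| log X)` linear forms with the same property (without the bound for `m`). -/
theorem result (k M : ℕ) (hk : 1 ≤ k) : ∃ r : ℕ, 1 ≤ r ∧
    (∀ δ ε : ℝ, 0 < δ → 0 < ε → ∃ (c : ℝ) (K : ℕ), 0 < c ∧ ∀ X : ℕ, 2 ≤ X →
      ∀ A : Finset ℕ, (∀ p ∈ A, p.Prime ∧ p ≤ X) → δ * (X / Real.log X) ≤ A.card →
      ∃ H : Finset (ℤ × ℕ), H.card ≤ K ∧ ∀ S : Finset (ℤ × ℕ), System k M X S → Disjoint S H →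
        c * A.card ≤ ((good A X ε r S).ncard : ℝ)) ∧
    (∀ ε : ℝ, 0 < ε → ∃ c C η : ℝ, 0 < c ∧ 0 < η ∧ ∀ X : ℕ, 2 ≤ X →
      ∀ A : Finset ℕ, (∀ p ∈ A, p.Prime ∧ p ≤ X) → (X : ℝ) ^ (1 - η) ≤ A.card →
      ∃ H : Finset (ℤ × ℕ), (H.card : ℝ) ≤ C * (X / (A.card * Real.log X)) ∧
        ∀ S : Finset (ℤ × ℕ), System k M X S → Disjoint S H →
        c * A.card ≤ ((goodSparse A X ε r S).ncard : ℝ)) := by
  classical
  obtain ⟨r₁, hr₁, h1⟩ := Pool.Agent.W23.KT.dense_thm k M hk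
  obtain ⟨r₂, hr₂, h2⟩ := Pool.Agent.W23.KT.sparse_thm k M hk
  set r := max r₁ r₂ with hr
  have hr1 : 1 ≤ r := hr₁.trans (le_max_left _ _)
  have hsys : ∀ (X : ℕ) (S : Finset (ℤ × ℕ)), System k M X S → Pool.Agent.W23.KT.Sys k M X S :=
    fun X S hS => ⟨hS.1, fun L hL => by
      obtain ⟨g1, g2, g3, g4⟩ := hS.2 L hL
      exact ⟨g1, g2, g3, g4⟩⟩
  have hpow : ∀ (X r' : ℕ), 2 ≤ X → 1 ≤ r' → r' ≤ r →
      (X : ℝ) ^ (1 / r : ℝ) ≤ (X : ℝ) ^ (1 / r' : ℝ) := by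
    intro X r' hX h1' h2'
    have hX1 : (1 : ℝ) ≤ X := by exact_mod_cast (by omega : 1 ≤ X)
    apply Real.rpow_le_rpow_of_exponent_le hX1
    have h3 : (0 : ℝ) < r' := by exact_mod_cast h1'
    have h4 : (r' : ℝ) ≤ r := by exact_mod_cast h2'
    exact one_div_le_one_div_of_le h3 h4
  refine ⟨r, hr1, ?_, ?_⟩
  · intro δ ε hδ hε
    obtain ⟨c, K, hc, h⟩ := h1 δ ε hδ hε
    refine ⟨c, K, hc, fun X hX A hA hAc => ?_⟩
    obtain ⟨H, hH1, hH2⟩ := h X hX A hA hAc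
    refine ⟨H, hH1, fun S hS hSH => (hH2 S (hsys X S hS) hSH).trans ?_⟩
    rw [← Set.ncard_coe_finset]
    have hfin : (good A X ε r S).Finite := A.finite_toSet.subset fun p hp => hp.1
    refine Nat.cast_le.2 (Set.ncard_le_ncard ?_ hfin)
    intro p hp
    unfold Pool.Agent.W23.KT.G2 at hp
    rw [Finset.mem_coe, Finset.mem_filter] at hp
    refine ⟨hp.1, fun L hL => ?_⟩
    obtain ⟨m, s, e1, e2, e3, e4, e5, e6⟩ := hp.2 L hL
    refine ⟨m, s, e1, e2, e3, e4, e5.trans (le_max_left _ _), fun q hq hqs => ?_⟩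
    exact (hpow X r₁ hX hr₁ (le_max_left _ _)).trans
      (e6 q (Nat.mem_primeFactors.2 ⟨hq, hqs, by omega⟩))
  · intro ε hε
    obtain ⟨c, C, η, hc, hη, h⟩ := h2 ε hε
    refine ⟨c, C, η, hc, hη, fun X hX A hA hAc => ?_⟩
    obtain ⟨H, hH1, hH2⟩ := h X hX A hA hAc
    refine ⟨H, hH1, fun S hS hSH => (hH2 S (hsys X S hS) hSH).trans ?_⟩
    rw [← Set.ncard_coe_finset]
    have hfin : (goodSparse A X ε r S).Finite := A.finite_toSet.subset fun p hp => hp.1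
    refine Nat.cast_le.2 (Set.ncard_le_ncard ?_ hfin)
    intro p hp
    unfold Pool.Agent.W23.KT.G1 at hp
    rw [Finset.mem_coe, Finset.mem_filter] at hp
    refine ⟨hp.1, fun L hL => ?_⟩
    obtain ⟨e0, m, s, e1, e2, e3, e4⟩ := hp.2 L hL
    have hs : s ≠ 0 := by
      rintro rfl
      rw [mul_zero, Int.natAbs_eq_zero] at e1
      exact e0 e1
    refine ⟨e0, m, s, e1, e2, e3.trans (le_max_right _ _), fun q hq hqs => ?_⟩
    exact (hpow X r₂ hX hr₂ (le_max_right _ _)).trans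
      (e4 q (Nat.mem_primeFactors.2 ⟨hq, hqs, hs⟩))

end Pool.Agent.Results.MP_e87c7d_nt.AlmostPrimeTuplesDenseSets
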