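import Mathlib
import Pool.Agent.W218.PG.Univ

set_option autoImplicit false

/-!
Prime `r`-tuples `t + h_1, ..., t + h_r` with `t` in an arbitrary given finite set `T` of about `(log H)^r` or more
integers, for a positive proportion of the vectors `(h_1, ..., h_r)` with entries in `(H, 2H]`.
-/

namespace Pool.Agent.Results.MP_e87c7d_nt.ArbitrarySparseSets

open Finset Pool.Agent.W218.PG

/-- the number of `t ∈ T` such that all `t + h_i` are (positive) primes -/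
def P {r : ℕ} (T : Finset ℤ) (h : Fin r → ℕ) : ℕ := (T.filter (fun t : ℤ => ∀ i, (t + h i).toNat.Prime)).card

/-- the number of `t ∈ T` for which no `t + h_i` has a prime factor `≤ z` -/
def R {r : ℕ} (z : ℕ) (T : Finset ℤ) (h : Fin r → ℕ) : ℕ :=
  (T.filter (fun t : ℤ => ∀ i, ∀ p ≤ z, p.Prime → ¬ ((p : ℤ) ∣ t + h i))).card

/-- the product of `1 - 1/p` over the primes `p ≤ z` -/
noncomputable def V (z : ℕ) : ℝ := ∏ p ∈ (Icc 1 z).filter Nat.Prime, (1 - 1 / (p : ℝ))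

/-- the product of the primes `p ≤ z` -/
def primorial (z : ℕ) : ℕ := ∏ p ∈ (Icc 1 z).filter Nat.Prime, p

open Classical in
theorem result (r : ℕ) (hr : 1 ≤ r) (θ : ℝ) (hθ : θ < 1) :
    (∀ c C : ℝ, 0 < c → ∃ κ : ℝ, 0 < κ ∧ ∃ H₀ : ℕ, ∀ H : ℕ, H₀ ≤ H → ∀ z : ℕ, (primorial z : ℝ) ≤ κ * H →
      ∀ T : Finset ℤ, (∀ t ∈ T, |(t : ℝ)| ≤ κ * H) → c * Real.log H ^ r ≤ T.card →
      ∑ s ∈ T, ∑ t ∈ T, (((s - t).natAbs : ℝ) / Nat.totient (s - t).natAbs) ^ (2 * r) ≤ C * (T.card : ℝ) ^ 2 →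
      κ * H ^ r ≤ (((Fintype.piFinset (fun _ : Fin r => Ioc H (2 * H))).filter (fun h =>
        κ * T.card / Real.log H ^ r ≤ P T h ∧
        θ * (R z T h / V z ^ r) / Real.log H ^ r ≤ P T h)).card : ℝ)) ∧
    (∀ c δ : ℝ, 0 < c → 0 < δ → ∃ κ : ℝ, 0 < κ ∧ ∃ H₀ : ℕ, ∀ H : ℕ, H₀ ≤ H → ∀ z : ℕ, (primorial z : ℝ) ≤ κ * H →
      ∀ x : ℕ, c * Real.log H ^ r ≤ x → (x : ℝ) ≤ κ * H → ∀ T : Finset ℤ, T ⊆ Icc 1 (x : ℤ) → δ * x ≤ T.card →
      κ * H ^ r ≤ (((Fintype.piFinset (fun _ : Fin r => Ioc H (2 * H))).filter (fun h =>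
        κ * T.card / Real.log H ^ r ≤ P T h ∧
        θ * (R z T h / V z ^ r) / Real.log H ^ r ≤ P T h)).card : ℝ)) := by
  have h1 : ∀ c C : ℝ, 0 < c → ∃ κ : ℝ, 0 < κ ∧ ∃ H₀ : ℕ, ∀ H : ℕ, H₀ ≤ H → ∀ z : ℕ, (primorial z : ℝ) ≤ κ * H →
      ∀ T : Finset ℤ, (∀ t ∈ T, |(t : ℝ)| ≤ κ * H) → c * Real.log H ^ r ≤ T.card →
      ∑ s ∈ T, ∑ t ∈ T, (((s - t).natAbs : ℝ) / Nat.totient (s - t).natAbs) ^ (2 * r) ≤ C * (T.card : ℝ) ^ 2 →
      κ * H ^ r ≤ (((Fintype.piFinset (fun _ : Fin r => Ioc H (2 * H))).filter (fun h =>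
        κ * T.card / Real.log H ^ r ≤ P T h ∧
        θ * (R z T h / V z ^ r) / Real.log H ^ r ≤ P T h)).card : ℝ) := by
    intro c C hc
    obtain ⟨κ, hκ, H₀, h⟩ := univ_sets r hr c (max C 0) hc (le_max_right _ _) θ hθ
    refine ⟨κ, hκ, H₀, fun H hH z hz T hT hTc hTm => ?_⟩
    refine (h H hH z hz T hT hTc (hTm.trans ?_)).trans ?_
    · exact mul_le_mul_of_nonneg_right (le_max_left _ _) (by positivity)
    · apply le_of_eq
      congr 2
      apply filter_congr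
      intro h _
      exact and_comm
  refine ⟨h1, fun c δ hc hδ => ?_⟩
  obtain ⟨C, hC, X0, hX⟩ := mom_I (2 * r) (by omega) Polynomial.X (by simp)
  obtain ⟨κ, hκ, H₀, h⟩ := h1 (c * δ) (C / δ ^ 2) (by positivity)
  obtain ⟨H₁, hH₁⟩ : ∃ H₁ : ℕ, ∀ H : ℕ, H₁ ≤ H → ((X0 : ℝ) ≤ c * Real.log H ^ r ∧ 1 ≤ H) := by
    refine ⟨⌈Real.exp (1 + X0 / c)⌉₊, fun H hH => ?_⟩
    have hA1 : Real.exp (1 + X0 / c) ≤ H := (Nat.le_ceil _).trans (by exact_mod_cast hH)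
    have hA0 : (0 : ℝ) < H := lt_of_lt_of_le (Real.exp_pos _) hA1
    have hlA : 1 + (X0 : ℝ) / c ≤ Real.log H := by
      rwa [Real.le_log_iff_exp_le hA0]
    have h2 : 0 ≤ (X0 : ℝ) / c := by positivity
    refine ⟨?_, by exact_mod_cast hA0⟩
    have h3 : (X0 : ℝ) / c ≤ Real.log H ^ r := by
      calc (X0 : ℝ) / c ≤ Real.log H := by linarith
        _ ≤ Real.log H ^ r := le_self_pow₀ (by linarith) (by omega)
    rw [div_le_iff₀ hc] at h3
    linarith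
  refine ⟨κ, hκ, max H₀ H₁, fun H hH z hz x hcx hxH T hT hTc => ?_⟩
  obtain ⟨h2, h3⟩ := hH₁ H ((le_max_right _ _).trans hH)
  have hxX : X0 ≤ x := by exact_mod_cast h2.trans hcx
  have hTmem : ∀ t ∈ T, 1 ≤ t ∧ t ≤ x := fun t ht => mem_Icc.1 (hT ht)
  refine h H ((le_max_left _ _).trans hH) z hz T ?_ ?_ ?_
  · intro t ht
    obtain ⟨k1, k2⟩ := hTmem t ht
    have k1' : (1 : ℝ) ≤ t := by exact_mod_cast k1
    have k2' : (t : ℝ) ≤ x := by exact_mod_cast k2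
    rw [abs_of_nonneg (by linarith)]
    linarith
  · calc c * δ * Real.log H ^ r = δ * (c * Real.log H ^ r) := by ring
      _ ≤ δ * x := by gcongr
      _ ≤ T.card := hTc
  · set T' : Finset ℕ := T.image Int.toNat with hT'
    have hinj : Set.InjOn Int.toNat T := by
      intro s hs t ht hst
      have h1 := (hTmem s hs).1
      have h2 := (hTmem t ht).1
      omega
    have hsub : T' ⊆ Icc 1 x := by
      intro u hu
      rw [hT', mem_image] at hu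
      obtain ⟨t, ht, rfl⟩ := hu
      have := hTmem t ht
      rw [mem_Icc]
      omega
    have h4 := hX x hxX T' hsub
    have e : ∑ t₁ ∈ T', ∑ t₂ ∈ T', Pool.Agent.Erdos456.GG ((Polynomial.X : Polynomial ℤ).eval (t₁ : ℤ) -
        (Polynomial.X : Polynomial ℤ).eval (t₂ : ℤ)).natAbs ^ (2 * r) =
        ∑ s ∈ T, ∑ t ∈ T, (((s - t).natAbs : ℝ) / Nat.totient (s - t).natAbs) ^ (2 * r) := by
      rw [hT', sum_image hinj]
      apply sum_congr rfl
      intro s hs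
      rw [sum_image hinj]
      apply sum_congr rfl
      intro t ht
      have k1 := (hTmem s hs).1
      have k2 := (hTmem t ht).1
      rw [Polynomial.eval_X, Polynomial.eval_X, Int.toNat_of_nonneg (by omega), Int.toNat_of_nonneg (by omega)]
      rfl
    rw [e] at h4
    refine h4.trans ?_
    have h5 : (δ * x) ^ 2 ≤ (T.card : ℝ) ^ 2 := by
      apply pow_le_pow_left₀ (by positivity) hTc
    calc C * (x : ℝ) ^ 2 = C / δ ^ 2 * (δ * x) ^ 2 := by field_simp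
      _ ≤ C / δ ^ 2 * (T.card : ℝ) ^ 2 := by gcongr

end Pool.Agent.Results.MP_e87c7d_nt.ArbitrarySparseSets
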