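import Pool.Agent.W70.HRC.Fin
import Pool.Agent.H387R2.U2

/-!
# Patterns of consecutive primes with the right order of magnitude

For every `k ≥ 1` there is `Λ > 0` such that in every set `A` of at least `η log x` positive integers
up to `Λ log x` (`η > 0` as small as we like) a fixed positive proportion
`1 / C(8 k ^ 2 + 1, k + 1) - ε` of the `(k + 1)`-element subsets `T`, measured by the singular
series `𝔖 T`, has the property that for at least `δ 𝔖 T x / (log x) ^ (k + 1)` integers `n ≤ x` the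
numbers `n + t`, `t ∈ T`, are CONSECUTIVE primes: the lower bound of the Hardy-Littlewood conjecture
up to the constant `δ > 0`, with no further primes between them.
-/

set_option autoImplicit false

open Finset

namespace Pool.Agent.Results.MP_e87c7d_nt.ConsecutiveTuples

/-- the numbers `n + t`, `t ∈ T`, are consecutive primes: they are prime, and every prime `n + j`
between two of them is one of them -/
def Consecutive (n : ℕ) (T : Finset ℕ) : Prop :=
  (∀ t ∈ T, (n + t).Prime) ∧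
    ∀ j : ℕ, (∃ a ∈ T, a ≤ j) → (∃ b ∈ T, j ≤ b) → (n + j).Prime → j ∈ T

open Classical in
/-- the number of `n ≤ x` for which the `n + t`, `t ∈ T`, are consecutive primes -/
noncomputable def count (x : ℕ) (T : Finset ℕ) : ℕ :=
  ((Icc 1 x).filter (fun n => Consecutive n T)).card

/-- the number of residue classes modulo `p` occupied by `T` -/
def nu (T : Finset ℕ) (p : ℕ) : ℕ := (T.image (· % p)).card

/-- the factor at `p` of the singular series -/
noncomputable def loc (T : Finset ℕ) (p : ℕ) : ℝ :=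
  (1 - (nu T p : ℝ) / p) / (1 - 1 / (p : ℝ)) ^ T.card

/-- the singular series of `T` -/
noncomputable def 𝔖 (T : Finset ℕ) : ℝ := ∏' p : Nat.Primes, loc T p

open Pool.Agent.H387R2.Uni Pool.Agent.W70.HRC

theorem loc_eq (T : Finset ℕ) (p : ℕ) : locT T p = loc T p := rfl

theorem CT_eq (T : Finset ℕ) : CT T = 𝔖 T := rfl

theorem cnT_le {X x : ℕ} (hx : 2 * X ≤ x) (_ : 1 ≤ X) (T : Finset ℕ) : cnT X T ≤ count x T := by
  classical
  unfold cnT count
  apply card_le_card
  intro n hn
  rw [mem_filter, mem_Ico] at hn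
  rw [mem_filter, mem_Icc]
  exact ⟨⟨by omega, by omega⟩, hn.2⟩

open Classical in
/-- For every finite set `T` the product `𝔖 T` converges, and it is positive if `T` is admissible
(misses a class modulo every prime). For every `k ≥ 1` there is `Λ > 0` such that for all
`η, ε > 0` there are `δ > 0` and `x₀` such that for all `x ≥ x₀` and every set `A` of positive
integers `≤ Λ log x` with at least `η log x` elements: the `(k + 1)`-element subsets `T` of `A` for
which there are at least `δ 𝔖 T x / (log x) ^ (k + 1)` integers `n ≤ x` such that the `n + t`,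
`t ∈ T`, are consecutive primes carry at least the proportion `1 / C(8 k ^ 2 + 1, k + 1) - ε` of
the sum of `𝔖 T` over all `(k + 1)`-element subsets `T` of `A`. -/
theorem result :
    (∀ T : Finset ℕ, HasProd (fun p : Nat.Primes => loc T p) (𝔖 T) ∧
      ((∀ p : ℕ, p.Prime → nu T p < p) → 0 < 𝔖 T)) ∧
    ∀ k : ℕ, 1 ≤ k → ∃ Λ : ℝ, 0 < Λ ∧ ∀ η ε : ℝ, 0 < η → 0 < ε →
      ∃ δ : ℝ, 0 < δ ∧ ∃ x₀ : ℕ, ∀ x : ℕ, x₀ ≤ x → ∀ A : Finset ℕ,
      (∀ a ∈ A, 1 ≤ a ∧ (a : ℝ) ≤ Λ * Real.log x) → η * Real.log x ≤ A.card →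
      (1 / ((8 * k ^ 2 + 1).choose (k + 1) : ℝ) - ε) * ∑ T ∈ A.powersetCard (k + 1), 𝔖 T ≤
        ∑ T ∈ (A.powersetCard (k + 1)).filter (fun T =>
          δ * 𝔖 T * (x / Real.log x ^ (k + 1)) ≤ count x T), 𝔖 T := by
  refine ⟨fun T => ⟨CT_hasProd T, fun hT => ?_⟩, fun k hk => ?_⟩
  · rw [← CT_eq, ← CT_en]
    apply Pool.Agent.H386R2.HL.singularSeries_pos (en_inj T)
    intro p hp
    rw [nu_en]
    exact hT p hp
  obtain ⟨Λ, hΛ, hΛ1, hF⟩ := fin_k k hk
  refine ⟨Λ / 2, by positivity, fun η ε hη hε => ?_⟩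
  obtain ⟨δ, hδ, X₀, hX₀⟩ := hF η ε hη hε
  refine ⟨δ / 3, by positivity, 2 * X₀ + 20, fun x hx A hA hcard => ?_⟩
  obtain ⟨X, hX⟩ : ∃ X : ℕ, X = x / 2 := ⟨_, rfl⟩
  have hX1 : 2 * X ≤ x := by omega
  have hX6 : 6 ≤ X := by omega
  have hXX₀ : X₀ ≤ X := by omega
  have hXr : (6 : ℝ) ≤ X := by exact_mod_cast hX6
  have hxr : (X : ℝ) ≤ x := by exact_mod_cast (by omega : X ≤ x)
  have hx3 : (x : ℝ) ≤ 3 * X := by exact_mod_cast (by omega : x ≤ 3 * X)
  have hL : 0 < Real.log X := Real.log_pos (by linarith)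
  have hLx : Real.log X ≤ Real.log x := Real.log_le_log (by linarith) hxr
  have hL2 : Real.log x ≤ 2 * Real.log X := by
    have h1 : (x : ℝ) ≤ (X : ℝ) ^ 2 := by nlinarith
    calc Real.log x ≤ Real.log ((X : ℝ) ^ 2) := Real.log_le_log (by linarith) h1
      _ = 2 * Real.log X := by rw [Real.log_pow]; norm_num
  have hA' : ∀ a ∈ A, 1 ≤ a ∧ (a : ℝ) ≤ Λ * Real.log X := by
    intro a ha
    obtain ⟨h1, h2⟩ := hA a ha
    refine ⟨h1, h2.trans ?_⟩
    calc Λ / 2 * Real.log x ≤ Λ / 2 * (2 * Real.log X) := by gcongr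
      _ = Λ * Real.log X := by ring
  have hcard' : η * Real.log X ≤ A.card := le_trans (by gcongr) hcard
  have key := hX₀ X hXX₀ A hA' hcard'
  refine key.trans ?_
  refine sum_le_sum_of_subset_of_nonneg (f := CT) ?_ ?_
  · intro T hT
    rw [mem_filter] at hT ⊢
    refine ⟨hT.1, ?_⟩
    have h2' : (cnT X T : ℝ) ≤ count x T := by exact_mod_cast cnT_le hX1 (by omega) T
    refine le_trans ?_ (hT.2.trans h2')
    rw [CT_eq]
    have h3 : 0 ≤ 𝔖 T := CT_nonneg T
    have h4 : (x : ℝ) / Real.log x ^ (k + 1) ≤ 3 * X / Real.log X ^ (k + 1) := by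
      apply div_le_div₀ (by positivity) hx3 (by positivity)
      exact pow_le_pow_left₀ hL.le hLx _
    calc δ / 3 * 𝔖 T * (x / Real.log x ^ (k + 1)) ≤
        δ / 3 * 𝔖 T * (3 * X / Real.log X ^ (k + 1)) := by gcongr
      _ = δ * (𝔖 T * (X / Real.log X ^ (k + 1))) := by ring
  · intro T _ _
    exact CT_nonneg T

end Pool.Agent.Results.MP_e87c7d_nt.ConsecutiveTuples
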